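import Mathlib
import Pool.Agent.H53.G1.CntMom
import Pool.Agent.H30.Sp.Geo

set_option autoImplicit false
open Finset

/-! # The moment of `4 ^ N` for a row of a window, from the hypotheses of `count_loops` -/

namespace Pool.Agent.H53.Sp

open Pool.Agent.H75.Perc Pool.Agent.H75.TwoArm Pool.Agent.H34.Q1 Pool.Agent.H99.NC
open Pool.Agent.Q1 Pool.Agent.Q1.M6b.Nest Pool.Agent.Q1.M6b.Gl
open Pool.Agent.H74.R45 Pool.Agent.H13.R45 Pool.Agent.H33.Q1 Pool.Agent.H30.Mid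
open Pool.Agent.H81.G1 Pool.Agent.H30.Sp Pool.Agent.H53.G1
open Pool.Agent.H69.M6b (lbt lbt_inj)
open Pool.Agent.H46.Sp (Win)
open Pool.Agent.H46.Sp.Win (m_min M_max m_lt_M a_min b_max m_le_a b_le_M m_le_a' b_le_M')

variable {D : Win} {j : ℤ} {N : ℕ} {X : Env} {W B : Finset (ℤ × ℤ)}

/-- the glued labels are near the window -/
lemma gE_win_fst {e : ℤ × ℤ} (ho : (e.1 + e.2) % 2 = 1) (he : e ∈ gE (BLw D j B) (BUw D j B) (1, -1)) :
    xa D - D.h ≤ e.1 ∧ e.1 ≤ xb D + 2 := by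
  obtain ⟨x, y, rfl⟩ := exists_lbt ho
  rw [Pool.Agent.H81.G1.mem_gE, mem_BLw, mem_BUw] at he
  have hh := D.hh
  unfold lbt
  simp only
  rcases he with ⟨h1, -⟩ | ⟨h1, -⟩
  · have h3 := a_min (D := D) (y := y + 1) (by omega) h1.2.2.1
    have h4 := b_max (D := D) (y := y + 1) (by omega) h1.2.2.1
    unfold xa xb
    omega
  · have h3 := a_min (D := D) (y := y + 1) h1.2.1 h1.2.2.1
    have h4 := b_max (D := D) (y := y + 1) h1.2.1 h1.2.2.1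
    unfold xa xb
    omega

/-- **The moment for a row of a window**: at most `l` boxes, at most `g` gates. -/
theorem win_moment (l g A : ℕ) : ∃ (Λ : ℤ) (C : ℝ), 1 ≤ Λ ∧ 0 < C ∧
    ∀ (R : ℕ) (D : Win) (j : ℤ) (N : ℕ) (X : Env) (W B : Finset (ℤ × ℤ)) (v : ℤ × ℤ),
    WRow D j N X W B → D.h ≤ A * R → D.b D.yQ - D.a (D.yP - 1) ≤ A * R →
    ∀ (m : ℕ), m ≤ l → ∀ (Gt : Finset (ℤ × ℤ)), Gt.card ≤ g →
    ∀ (Bl G : Fin m → Set (ℤ × ℤ)) (x : Fin m → ℤ × ℤ) (r M : Fin m → ℤ)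
      (Kv Kf : Finset (ℤ × ℤ) → Set (ℤ × ℤ)),
    (∀ ω, ω ⊆ gE (BLw D j B) (BUw D j B) (1, -1) →
      CntHyp (ω ∪ WGw D j W B) (gE (BLw D j B) (BUw D j B) (1, -1)) v Gt m Bl G x r M (Kv ω) (Kf ω)) →
    (∀ i, 0 ≤ r i) → (∀ i, Λ * (r i + 1) ≤ M i) →
    (∀ i, OneType (gE (BLw D j B) (BUw D j B) (1, -1)) (WGw D j W B) (G i) (x i) (M i)) →
    Ex (fun _ => (1 / 2 : ℝ)) (gE (BLw D j B) (BUw D j B) (1, -1)) (fun ω => (4 : ℝ) ^
      (Lp (ω ∪ WGw D j W B) v).ncard) ≤ C * ((R : ℝ) + 1) ^ (25 / 32 : ℝ) := by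
  obtain ⟨Λ, C, hΛ, hC, H⟩ := count_moment_le l g (2 * A + 12)
  refine ⟨Λ, C, hΛ, hC, ?_⟩
  intro R D j N X W B v hR hh hw m hm Gt hG Bl G x r M Kv Kf hyp hr hM hT
  have hAR : (0 : ℤ) ≤ A * R := by positivity
  have hh0 := D.hh
  have hw0 : xa D + 4 ≤ xb D := by
    have h1 := m_lt_M (D := D) (y := 0) (by omega) (by omega)
    have h2 := m_min (D := D) (y := 0) (by omega) (by omega)
    have h3 := M_max (D := D) (y := 0) (by omega) (by omega)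
    unfold xa xb
    omega
  have hodd : ∀ e ∈ gE (BLw D j B) (BUw D j B) (1, -1), (e.1 + e.2) % 2 = 1 := fun e he =>
    gE_odd' hR.lay he
  refine H R (xb D - xa D + D.h + 8).toNat (gE (BLw D j B) (BUw D j B) (1, -1)) (WGw D j W B)
    ((xa D - D.h - 1) / 2) v ?_ (disj_WGb hR.po hR.lay) hodd ?_ m hm Gt hG Bl G x r M Kv Kf hyp hr
    hM hT
  · have : (((xb D - xa D + D.h + 8).toNat + 1 : ℕ) : ℤ) ≤ (((2 * A + 12) * (R + 1) : ℕ) : ℤ) := by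
      push_cast
      rw [Int.toNat_of_nonneg (by omega)]
      have h5 : (0 : ℤ) ≤ R := Nat.cast_nonneg R
      have h6 : (0 : ℤ) ≤ A := Nat.cast_nonneg A
      have h7 : xb D - xa D = D.b D.yQ - D.a (D.yP - 1) + 4 := by unfold xa xb; ring
      nlinarith
    exact_mod_cast this
  · intro e he
    have h3 := gE_win_fst (hodd e he) he
    rw [Int.toNat_of_nonneg (by omega)]
    omega

end Pool.Agent.H53.Sp
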