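import Mathlib
import Pool.Agent.H53.Sp.WinMom
import Pool.Agent.H30.Sp.Gate2
import Pool.Agent.H46.Sp.TSys
import Pool.Agent.H46.Sp.BoxG

set_option autoImplicit false
open Finset

/-! # The moment of `4 ^ N` for the frozen environments of a row of a window (B-h)

`S` : a system of runs of ties (`TSys`), `T` : the ties which may be cut; their half boxes
`T.biUnion (S.Bt K T)` are frozen. `GOk D j S L up` : the geometry of the runs in the window `D` with the row
`j - 1` (`up a = true` : the run is above the row). `FOk S L W T` : the frozen labels near the runs. -/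

namespace Pool.Agent.H53.Sp

open Pool.Agent.H75.Perc Pool.Agent.H75.TwoArm Pool.Agent.H34.Q1 Pool.Agent.H99.NC
open Pool.Agent.Q1 Pool.Agent.Q1.M6b.Nest Pool.Agent.Q1.M6b.Gl
open Pool.Agent.Q1.M6b.Gd (sm vx_sm smv)
open Pool.Agent.H74.R45 Pool.Agent.H13.R45 Pool.Agent.H33.Q1 Pool.Agent.H30.Mid
open Pool.Agent.H81.G1 Pool.Agent.H30.Sp Pool.Agent.H53.G1
open Pool.Agent.H46.G1 (mem_Wp)
open Pool.Agent.H69.M6b (lbt lbt_inj)
open Pool.Agent.H46.Sp (Win Kd TSys Gn oneType_Gn boxGeo_flat)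

variable {κ : Type*} {D : Win} {j x y : ℤ} {N : ℕ} {X : Env}

/-! ### Geometry of the runs in the window -/

/-- **The runs of ties in a window with the row `j - 1`.** -/
structure GOk (D : Win) (j : ℤ) (S : TSys κ) (L : ℤ) (up : κ → Bool) : Prop where
  bup : ∀ a u t, up a = true → 0 ≤ u → S.Rg L a u t → j ≤ (S.tl a u t).2 ∧ (S.tl a u t).2 < D.h ∧
    D.a (S.tl a u t).2 ≤ (S.tl a u t).1 ∧ (S.tl a u t).1 < D.b (S.tl a u t).2
  blo : ∀ a u t, up a = false → 0 ≤ u → S.Rg L a u t → -1 ≤ (S.tl a u t).2 ∧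
    (S.tl a u t).2 < j - 1 ∧ D.a ((S.tl a u t).2 + 1) ≤ (S.tl a u t).1 ∧
    (S.tl a u t).1 < D.b ((S.tl a u t).2 + 1)
  nup : ∀ a u t, up a = true → -L ≤ u → u ≤ -1 → S.Rg L a (-1) t → j ≤ (S.tl a u t).2 ∧
    ¬ ((S.tl a u t).2 < D.h ∧ D.a (S.tl a u t).2 ≤ (S.tl a u t).1 ∧
      (S.tl a u t).1 < D.b (S.tl a u t).2)
  nlo : ∀ a u t, up a = false → -L ≤ u → u ≤ -1 → S.Rg L a (-1) t → (S.tl a u t).2 < j - 1 ∧
    ¬ (-1 ≤ (S.tl a u t).2 ∧ D.a ((S.tl a u t).2 + 1) ≤ (S.tl a u t).1 ∧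
      (S.tl a u t).1 < D.b ((S.tl a u t).2 + 1))
  box : ∀ a u t, u = -1 ∨ u = -2 → S.Rg L a (-1) t → D.InZ (S.tl a u t).1 (S.tl a u t).2

/-- **The frozen labels near the runs.** -/
structure FOk (S : TSys κ) (L : ℤ) (W T : Finset (ℤ × ℤ)) : Prop where
  w1 : ∀ a t, S.Rg L a (-1) t → lt (S.tl a (-1) t) ∉ T →
    (lt (S.tl a (-1) t) ∈ W ↔ S.c a = false)
  w2 : ∀ a t, S.Rg L a (-1) t → (lt (S.tl a (-2) t) ∈ W ↔ S.c a = true)

/-! ### The shift of the upper part -/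

/-- line of the shifted wall -/
def sp : Kd → ℤ → ℤ → ℤ
  | .L, _, p => p
  | .R, _, p => p
  | .F, δ, p => p - δ
  | .C, δ, p => p - δ

/-- tangential coordinate of the shifted tile -/
def sq : Kd → ℤ → ℤ → ℤ
  | .L, δ, t => t - δ
  | .R, δ, t => t - δ
  | .F, _, t => t
  | .C, _, t => t

lemma tau_sh (k : Kd) (δ p u t : ℤ) :
    k.tau (sp k δ p) u (sq k δ t) = ((k.tau p u t).1, (k.tau p u t).2 - δ) := by
  cases k <;> unfold sp sq Kd.tau <;> refine Prod.ext ?_ ?_ <;> simp only <;> ring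

lemma exists_sq (k : Kd) (δ t' : ℤ) : ∃ t, t' = sq k δ t := by
  cases k
  · exact ⟨t' + δ, by unfold sq; simp⟩
  · exact ⟨t' + δ, by unfold sq; simp⟩
  · exact ⟨t', rfl⟩
  · exact ⟨t', rfl⟩

lemma sq_sub (k : Kd) (δ t q : ℤ) : sq k δ t - sq k δ q = t - q := by
  cases k <;> unfold sq <;> simp only <;> ring

lemma sq_inj {k : Kd} {δ t q : ℤ} (h : sq k δ t = sq k δ q) : t = q := by
  have := sq_sub k δ t q
  omega

/-- shift of the run -/
def dl (up : κ → Bool) (a : κ) : ℤ := if up a then 1 else 0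

/-- colour of the first layer in the glued configuration -/
def gcl (up : κ → Bool) (a : κ) (c : Bool) : Bool := if up a then c else !c

lemma lt_shift (x y δ : ℤ) : ((lt (x, y - δ)).1 - δ, (lt (x, y - δ)).2 + δ) = lt (x, y) := by
  unfold lt
  refine Prod.ext ?_ ?_ <;> simp only <;> ring

variable {S : TSys κ} {L K Λ r n m : ℤ} {up : κ → Bool}
  {W B T Bp ω E0 W0 : Finset (ℤ × ℤ)} {F : Finset ℤ} {v e : ℤ × ℤ} {z : κ × ℤ} {u t : ℤ}

section fin

variable [Fintype κ] [DecidableEq κ] [Nonempty κ]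

/-- box of a tie in the glued plane -/
def Blg (S : TSys κ) (up : κ → Bool) (K : ℤ) (T : Finset (ℤ × ℤ)) (e : ℤ × ℤ) : Set (ℤ × ℤ) :=
  {l | (l.1 - dl up (S.idx e).1, l.2 + dl up (S.idx e).1) ∈ insert e (S.Bt K T e)}

/-- centre of the box of a tie in the glued plane -/
noncomputable def cen (S : TSys κ) (up : κ → Bool) (e : ℤ × ℤ) : ℤ × ℤ :=
  lt ((S.k (S.idx e).1).tau (sp (S.k (S.idx e).1) (dl up (S.idx e).1) (S.p (S.idx e).1)) (-1)
    (sq (S.k (S.idx e).1) (dl up (S.idx e).1) (S.q (S.idx e).1 + 2 * (S.idx e).2)))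

/-! ### Sizes -/

/-- the large box around a tie is in the region of the run -/
lemma rg_big (hO : S.Ok E0 W0 L) (hΛ : 1 ≤ Λ) (hK : 200 * (Λ + 1) ≤ K)
    (hKL : ∀ a, 40 * (Λ + 1) * S.N a ≤ K * L) (hz : z ∈ Pool.Agent.H46.G1.Wp S.N)
    (hr : 1 ≤ S.gD T (S.tie z) / K) (hm : m ≤ 13 * ((Λ + 1) * (S.gD T (S.tie z) / K))) :
    m ≤ L ∧ 2 * m < S.gD T (S.tie z) ∧ ∀ u t, -1 ≤ u → u ≤ m → |t - (S.q z.1 + 2 * z.2)| ≤ m →
      S.Rg L z.1 u t := by
  have h1 := TSys.gD_lo (A := T) hO hz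
  have h2 := TSys.gD_hi (A := T) hO hz
  have h3 := Int.mul_ediv_self_le (x := S.gD T (S.tie z)) (k := K) (by omega)
  have h4 := hKL z.1
  generalize S.gD T (S.tie z) / K = ρ at *
  generalize S.gD T (S.tie z) = G at *
  have h5 : 200 * ((Λ + 1) * ρ) ≤ K * ρ := by
    calc 200 * ((Λ + 1) * ρ) = (200 * (Λ + 1)) * ρ := by ring
      _ ≤ K * ρ := mul_le_mul_of_nonneg_right hK (by omega)
  have h6 : 2 ≤ (Λ + 1) * ρ := by nlinarith
  have h7 : 40 * ((Λ + 1) * ρ) * K ≤ 40 * (Λ + 1) * S.N z.1 := by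
    have h8 : K * ρ ≤ S.N z.1 := by omega
    calc 40 * ((Λ + 1) * ρ) * K = (40 * (Λ + 1)) * (K * ρ) := by ring
      _ ≤ (40 * (Λ + 1)) * S.N z.1 := mul_le_mul_of_nonneg_left h8 (by omega)
  have h9 : 40 * ((Λ + 1) * ρ) ≤ L := by
    have h10 : K * (40 * ((Λ + 1) * ρ)) ≤ K * L := by
      calc K * (40 * ((Λ + 1) * ρ)) = 40 * ((Λ + 1) * ρ) * K := by ring
        _ ≤ _ := h7.trans h4
    exact le_of_mul_le_mul_left h10 (by omega)
  generalize (Λ + 1) * ρ = P at *
  refine ⟨by omega, by omega, fun u t g1 g2 g3 => ?_⟩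
  rw [abs_le] at g3
  unfold TSys.Rg
  omega

end fin

/-! ### Tiles near a run -/

section box

variable (R : WRow D j N X W B) (hG : GOk D j S L up)

include R hG in
/-- a tile over the wall is in the bulk -/
lemma in_gE (h1 : 0 ≤ u) {a : κ} (h2 : S.Rg L a u t) (h3 : lt (S.tl a u t) ∉ B) :
    lt ((S.tl a u t).1, (S.tl a u t).2 - dl up a) ∈ gE (BLw D j B) (BUw D j B) (1, -1) := by
  have hj0 := R.j0
  have hj1 := R.j1
  unfold dl
  cases hu : up a
  · have g := hG.blo a u t hu h1 h2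
    revert g h3
    generalize S.tl a u t = w
    obtain ⟨X, Y⟩ := w
    intro g1 g2
    simp only [Bool.false_eq_true, if_false] at g1 g2 ⊢
    rw [← lbt_lt, sub_zero, mem_gE, mem_BLw, lbt_lt]
    exact Or.inl ⟨⟨g2.1, g2.2.1, by omega, g2.2.2⟩, g1⟩
  · have g := hG.bup a u t hu h1 h2
    revert g h3
    generalize S.tl a u t = w
    obtain ⟨X, Y⟩ := w
    intro g1 g2
    simp only [if_true] at g1 g2 ⊢
    rw [← lbt_lt, mem_gE, sub_add_cancel, mem_BUw, lbt_lt]
    exact Or.inr ⟨⟨g2.1, by omega, g2.2.1, g2.2.2⟩, g1⟩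

include hG in
/-- a tile behind the wall is not in the bulk -/
lemma not_bulk (h0 : -L ≤ u) (h1 : u ≤ -1) {a : κ} (h2 : S.Rg L a (-1) t) :
    ¬ Bulk D (S.tl a u t).1 ((S.tl a u t).2 - dl up a) := by
  unfold dl
  cases hu : up a
  · have g := hG.nlo a u t hu h0 h1 h2
    revert g
    generalize S.tl a u t = w
    obtain ⟨X, Y⟩ := w
    intro g h
    simp only [Bool.false_eq_true, if_false, sub_zero] at g h
    obtain ⟨b1, b2, b3, b4⟩ := h
    exact g.2 ⟨b1, b3, b4⟩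
  · have g := hG.nup a u t hu h0 h1 h2
    revert g
    generalize S.tl a u t = w
    obtain ⟨X, Y⟩ := w
    intro g h
    simp only [if_true] at g h
    obtain ⟨b1, b2, b3, b4⟩ := h
    rw [sub_add_cancel] at b3 b4
    exact g.2 ⟨by omega, b3, b4⟩

include R hG in
/-- colour of the layers behind the wall -/
lemma col_layer (h0 : -L ≤ u) (h1 : u = -1 ∨ u = -2) {a : κ} (h2 : S.Rg L a (-1) t) {b : Bool}
    (hb : lt (S.tl a u t) ∈ W ↔ b = false) :
    lt ((S.tl a u t).1, (S.tl a u t).2 - dl up a) ∉ gE (BLw D j B) (BUw D j B) (1, -1) ∧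
      (lt ((S.tl a u t).1, (S.tl a u t).2 - dl up a) ∈ WGw D j W B ↔ gcl up a b = true) := by
  have hnb := not_bulk hG h0 (by omega) h2
  have hz := InZ_iff.1 (hG.box a u t h1 h2)
  have hj0 := R.j0
  have hj1 := R.j1
  have e0 : WXw D j W B ∅ = WGw D j W B := by unfold WXw; rw [empty_union]
  constructor
  · intro h
    apply hnb
    rw [← lbt_lt, mem_gE, mem_BLw, mem_BUw] at h
    rcases h with ⟨h, -⟩ | ⟨h, -⟩
    · exact ⟨h.1, by omega, h.2.2.2⟩
    · exact ⟨by omega, by omega, h.2.2.2⟩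
  · rw [← e0]
    unfold gcl dl at *
    cases hu : up a
    · have g := hG.nlo a u t hu h0 (by omega) h2
      rw [hu] at hnb
      simp only [Bool.false_eq_true, if_false, sub_zero] at hnb ⊢
      rw [mem_WX_lo R (empty_subset _) g.1 hnb, hb]
      cases b
      · simp only [Bool.not_false, true_and, iff_true]; omega
      · simp
    · have g := hG.nup a u t hu h0 (by omega) h2
      rw [hu] at hnb
      simp only [if_true] at hnb ⊢
      rw [mem_WX_up R (empty_subset _) (by omega) hnb, sub_add_cancel, hb]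
      cases b
      · simp
      · simp only [Bool.true_eq_false, not_false_eq_true, true_and, iff_true]; omega

include hG in
/-- the mark is far from the box -/
lemma far_mark (hn : 0 ≤ n) (hL : n + 3 ≤ L)
    (hrg : ∀ u t, -1 ≤ u → u ≤ n + 3 → |t - (S.q z.1 + 2 * z.2)| ≤ n + 3 → S.Rg L z.1 u t)
    (hv : v.2 - v.1 = j - 1) :
    n < |2 * v.1 - (lt ((S.tl z.1 (-1) (S.q z.1 + 2 * z.2)).1,
      (S.tl z.1 (-1) (S.q z.1 + 2 * z.2)).2 - dl up z.1)).1| ∨
    n < |2 * v.2 + 1 - (lt ((S.tl z.1 (-1) (S.q z.1 + 2 * z.2)).1,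
      (S.tl z.1 (-1) (S.q z.1 + 2 * z.2)).2 - dl up z.1)).2| := by
  have key : n < |(S.tl z.1 (-1) (S.q z.1 + 2 * z.2)).2 - dl up z.1 - (j - 1)| := by
    set q := S.q z.1 + 2 * z.2 with hq
    rw [lt_abs]
    unfold dl
    have c0 := hrg (-1) q (by omega) (by omega) (by simp; omega)
    cases hu : up z.1
    · right
      simp only [Bool.false_eq_true, if_false]
      have a1 := hG.nlo z.1 (-1) (q + (n + 1)) hu (by omega) le_rfl
        (hrg (-1) _ (by omega) (by omega) (by rw [abs_le]; omega))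
      have a2 := hG.blo z.1 (n + 1) q hu (by omega) (hrg (n + 1) _ (by omega) (by omega)
        (by rw [abs_le]; omega))
      have a3 := hG.nlo z.1 (-(n + 2)) q hu (by omega) (by omega) c0
      have b1 := a1.1
      have b2 := a2.2.1
      have b3 := a3.1
      clear a1 a2 a3
      unfold TSys.tl at b1 b2 b3 ⊢
      generalize S.k z.1 = k at b1 b2 b3 ⊢
      cases k <;> simp only [Kd.tau] at b1 b2 b3 ⊢ <;> omega
    · left
      simp only [if_true]
      have a1 := hG.nup z.1 (-1) (q - (n + 1)) hu (by omega) le_rfl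
        (hrg (-1) _ (by omega) (by omega) (by rw [abs_le]; omega))
      have a2 := hG.bup z.1 (n + 1) q hu (by omega) (hrg (n + 1) _ (by omega) (by omega)
        (by rw [abs_le]; omega))
      have a3 := hG.nup z.1 (-(n + 2)) q hu (by omega) (by omega) c0
      have b1 := a1.1
      have b2 := a2.1
      have b3 := a3.1
      clear a1 a2 a3
      unfold TSys.tl at b1 b2 b3 ⊢
      generalize S.k z.1 = k at b1 b2 b3 ⊢
      cases k <;> simp only [Kd.tau] at b1 b2 b3 ⊢ <;> omega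
  revert key
  generalize (S.tl z.1 (-1) (S.q z.1 + 2 * z.2)).1 = X
  generalize (S.tl z.1 (-1) (S.q z.1 + 2 * z.2)).2 - dl up z.1 = Y
  intro key
  unfold lt
  simp only
  by_contra hcon
  rw [not_or, not_lt, not_lt, abs_le, abs_le] at hcon
  rw [lt_abs] at key
  omega

end box

/-! ### The box of a tie -/

lemma lt_unshift {l w : ℤ × ℤ} {δ : ℤ} (h : (l.1 - δ, l.2 + δ) = lt w) : l = lt (w.1, w.2 - δ) := by
  obtain ⟨l1, l2⟩ := l
  unfold lt at h ⊢
  simp only [Prod.mk.injEq] at h ⊢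
  omega

section tie

variable [Fintype κ] [DecidableEq κ] [Nonempty κ]

/-- no other tie of `T` near the tie `e` -/
lemma no_tie (hO : S.Ok E0 W0 L) (hz : z ∈ Pool.Agent.H46.G1.Wp S.N)
    (hrg : S.Rg L z.1 (-1) t) (hn : 2 * m < S.gD T (S.tie z)) (ht : t ≠ S.q z.1 + 2 * z.2)
    (htm : |t - (S.q z.1 + 2 * z.2)| ≤ m) (hT : T ⊆ S.Ti) : lt (S.tl z.1 (-1) t) ∉ T := by
  intro hcon
  have hN := mem_Wp.1 hz
  unfold TSys.Rg at hrg
  obtain ⟨s, hs, rfl⟩ := hO.own (a := z.1) (t := t) (by omega) (hT hcon) (by omega) (by omega)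
  have h1 := TSys.gD_ne (A := T) hO (a := z.1) (t := z.2) (s := s) hz hs hcon
    (fun h => ht (by rw [h]))
  change S.gD T (S.tie z) ≤ _ at h1
  rw [abs_le] at htm
  rw [le_abs] at h1
  omega

/-- **The box of a tie.** -/
theorem box_tie (R : WRow D j N X W (T.biUnion (S.Bt K T))) (Hb : Base D j W Bp) (hF : Few D F)
    (hO : S.Ok E0 W0 L) (hG : GOk D j S L up) (hf : FOk S L W T) (hT : T ⊆ S.Ti) (hΛ : 1 ≤ Λ)
    (hK : 200 * (Λ + 1) ≤ K) (hKL : ∀ a, 40 * (Λ + 1) * S.N a ≤ K * L) (he : e ∈ T)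
    (hr : 1 ≤ S.gD T e / K)
    (hω : ω ⊆ gE (BLw D j (T.biUnion (S.Bt K T))) (BUw D j (T.biUnion (S.Bt K T))) (1, -1))
    (hv : v.2 - v.1 = j - 1) :
    BoxGeo (ω ∪ WGw D j W (T.biUnion (S.Bt K T))) v (gts (Bg D F j Bp)) (Blg S up K T e)
      (Gn (gcl up (S.idx e).1 (S.c (S.idx e).1))
        (gE (BLw D j (T.biUnion (S.Bt K T))) (BUw D j (T.biUnion (S.Bt K T))) (1, -1))
        (WGw D j W (T.biUnion (S.Bt K T))) (Blg S up K T e))
      (cen S up e) (4 * (S.gD T e / K) + 2) (Λ * (4 * (S.gD T e / K) + 3)) := by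
  obtain ⟨hz, hze⟩ := hO.idx_mem (hT he)
  have hK0 : 400 ≤ K := by nlinarith
  have hKN : ∀ a, (S.N a : ℤ) < K * L ∨ (S.N a : ℤ) = 0 := by
    intro a
    have h1 := hKL a
    have h2 : (0 : ℤ) ≤ S.N a := Nat.cast_nonneg _
    rcases h2.eq_or_lt with h3 | h3
    · exact Or.inr h3.symm
    · left; nlinarith
  set B := T.biUnion (S.Bt K T) with hB
  set ρ := S.gD T e / K with hρ
  have hm : Λ * (4 * ρ + 3) + (4 * ρ + 2) + 4 + 3 ≤ 13 * ((Λ + 1) * ρ) := by nlinarith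
  have hM0 : 0 ≤ Λ * (4 * ρ + 3) := by positivity
  set n := Λ * (4 * ρ + 3) + (4 * ρ + 2) + 4 with hn
  obtain ⟨hL, hgD, hrg⟩ := rg_big (m := n + 3) (T := T) hO hΛ hK hKL hz (by rw [hze]; exact hr)
    (by rw [hze]; exact hm)
  rw [hze] at hgD
  have hpl : 0 < L := by omega
  have htl : ∀ u t, lt ((S.k (S.idx e).1).tau
      (sp (S.k (S.idx e).1) (dl up (S.idx e).1) (S.p (S.idx e).1)) u
      (sq (S.k (S.idx e).1) (dl up (S.idx e).1) t)) =
      lt ((S.tl (S.idx e).1 u t).1, (S.tl (S.idx e).1 u t).2 - dl up (S.idx e).1) := by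
    intro u t
    rw [tau_sh]; rfl
  refine boxGeo_flat (n := n) (S.k (S.idx e).1)
    (sp (S.k (S.idx e).1) (dl up (S.idx e).1) (S.p (S.idx e).1))
    (sq (S.k (S.idx e).1) (dl up (S.idx e).1) (S.q (S.idx e).1 + 2 * (S.idx e).2))
    (gcl up (S.idx e).1 (S.c (S.idx e).1)) hω (disj_WGb R.po R.lay) (by omega) hM0 (by omega)
    ?_ ?_ ?_ ?_ ?_ ?_ ?_
  · -- the labels of the box
    intro l hl
    unfold Blg at hl
    rw [Set.mem_ofPred_eq, mem_insert] at hl
    rcases hl with hl | hl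
    · refine ⟨-1, sq (S.k (S.idx e).1) (dl up (S.idx e).1) (S.q (S.idx e).1 + 2 * (S.idx e).2), ?_, ?_⟩
      · rw [htl]
        exact lt_unshift (hl.trans hze.symm)
      · simp; omega
    · have hl' := hl
      rw [← hze] at hl
      obtain ⟨-, u, t, h1, h2, h3, h4⟩ := TSys.mem_Bt_tie (A := T) hO (by omega) hz hl
      rw [hze] at h1 h3 h4
      refine ⟨u, sq (S.k (S.idx e).1) (dl up (S.idx e).1) t, ?_, ?_⟩
      · rw [htl]
        exact lt_unshift h1
      · rw [sq_sub, abs_of_nonneg (by omega : (0 : ℤ) ≤ u + 1)]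
        omega
  · -- the tie
    rw [htl]
    unfold Blg
    rw [Set.mem_ofPred_eq, lt_shift, mem_insert]
    left
    exact hze
  · -- the bulk
    intro u t' h1 h2 h3
    obtain ⟨t, rfl⟩ := exists_sq (S.k (S.idx e).1) (dl up (S.idx e).1) t'
    rw [sq_sub] at h3
    rw [htl]
    have hreg := hrg u t (by omega) (by omega) (by omega)
    by_cases hin : lt (S.tl (S.idx e).1 u t) ∈ B
    · right
      obtain ⟨e', he', hm'⟩ := mem_biUnion.1 hin
      unfold Blg
      rw [Set.mem_ofPred_eq, lt_shift, mem_insert]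
      right
      by_cases hee : e' = e
      · rw [hee] at hm'; exact hm'
      exfalso
      obtain ⟨hy, hye⟩ := hO.idx_mem (hT he')
      have hm'' := hm'
      rw [← hye] at hm''
      obtain ⟨g1, u', t'', g2, g3, g4, g5⟩ := TSys.mem_Bt_tie (A := T) hO (by omega) hy hm''
      by_cases hab : (S.idx e).1 = (S.idx e').1
      · have h4 := Int.mul_ediv_self_le (x := S.gD T (S.tie (S.idx e'))) (k := K) (by omega)
        have hne' : S.idx e ≠ S.idx e' := fun h => hee (by rw [← hze, ← hye, h])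
        have heA : S.tie (S.idx e) ∈ T := by rw [hze]; exact he
        have heA' : S.tie (S.idx e') ∈ T := by rw [hye]; exact he'
        have hgD' : 2 * (n + 3) < S.gD T (S.tie (S.idx e)) := by rw [hze]; exact hgD
        clear_value n B
        clear hrg htl hreg hye hm' hin hω Hb hF hB R hf hKL hKN hgD hm hM0 hn
        generalize S.idx e = P at *
        generalize S.idx e' = Q at *
        obtain ⟨x1, x2⟩ := P
        obtain ⟨y1, y2⟩ := Q
        simp only at hab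
        subst hab
        simp only at *
        have h5 : x2 ≠ y2 := fun h => hne' (by rw [h])
        have h6 := TSys.gD_ne (A := T) hO hz hy heA' h5.symm
        have h7 := TSys.gD_ne (A := T) hO hy hz heA h5
        have h8 := (Pool.Agent.H46.Sp.Kd.tau_inj (lt_inj g2)).2
        subst h8
        have h9 : 400 * (S.gD T (S.tie (x1, y2)) / K) ≤ K * (S.gD T (S.tie (x1, y2)) / K) :=
          mul_le_mul_of_nonneg_right hK0 (by omega)
        rw [abs_sub_comm] at h7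
        rw [abs_le] at g5 h3
        rw [le_abs] at h6 h7
        omega
      · have h4 : S.Rg L (S.idx e').1 u' t'' := by
          have h5 := TSys.gD_lo (A := T) hO hy
          have h6 := TSys.gD_hi (A := T) hO hy
          have h7 := Int.mul_ediv_self_le (x := S.gD T (S.tie (S.idx e'))) (k := K) (by omega)
          have h8 : 400 * (S.gD T (S.tie (S.idx e')) / K) ≤ K * (S.gD T (S.tie (S.idx e')) / K) :=
            mul_le_mul_of_nonneg_right hK0 (by omega)
          obtain ⟨hL', -, hrg'⟩ := rg_big (m := 2 * (S.gD T (S.tie (S.idx e')) / K)) (T := T) hO hΛ hK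
            hKL hy g1 (by nlinarith)
          exact hrg' u' t'' (by omega) (by omega) g5
        exact hO.sep _ _ _ _ _ _ hab h1 g3 hreg h4 (lt_inj g2)
    · left
      exact in_gE R hG h1 hreg hin
  · -- the first layer
    intro t' h1 h2
    obtain ⟨t, rfl⟩ := exists_sq (S.k (S.idx e).1) (dl up (S.idx e).1) t'
    rw [sq_sub] at h2
    rw [htl]
    have hreg := hrg (-1) t (by omega) (by omega) (by omega)
    have hne : t ≠ S.q (S.idx e).1 + 2 * (S.idx e).2 := fun h => h1 (by rw [h])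
    exact col_layer R hG (by omega) (Or.inl rfl) hreg (hf.w1 _ _ hreg
      (no_tie (m := n + 3) hO hz hreg (by rw [hze]; exact hgD) hne (by omega) hT))
  · -- the second layer
    intro t' h2
    obtain ⟨t, rfl⟩ := exists_sq (S.k (S.idx e).1) (dl up (S.idx e).1) t'
    rw [sq_sub] at h2
    rw [htl]
    have hreg := hrg (-1) t (by omega) (by omega) (by omega)
    have h3 := col_layer R hG (u := -2) (by omega) (Or.inr rfl) hreg (b := !S.c (S.idx e).1)
      (by rw [hf.w2 _ _ hreg]; cases S.c (S.idx e).1 <;> simp)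
    refine ⟨h3.1, h3.2.trans ?_⟩
    unfold gcl
    cases up (S.idx e).1 <;> cases S.c (S.idx e).1 <;> simp
  · -- index zero
    intro O hOL hg d u t' h1 h2 h3 h4 h5
    obtain ⟨t, rfl⟩ := exists_sq (S.k (S.idx e).1) (dl up (S.idx e).1) t'
    rw [sq_sub] at h4
    rw [htl] at h1
    have hreg := hrg (-1) t (by omega) (by omega) (by omega)
    exact kx_idx R Hb hF hω (not_bulk hG (by omega) h3 hreg) h1 hOL hg
  · -- the mark
    rw [htl]
    exact far_mark hG (by omega) hL hrg hv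

/-- the labels of the boxes in the glued plane -/
lemma hb_tie (hO : S.Ok E0 W0 L) (hG : GOk D j S L up) (hT : T ⊆ S.Ti) (hΛ : 1 ≤ Λ)
    (hK : 200 * (Λ + 1) ≤ K) (hKL : ∀ a, 40 * (Λ + 1) * S.N a ≤ K * L) {d : ℤ × ℤ}
    (hno : ∀ e ∈ T, 1 ≤ S.gD T e / K → lab d ∉ Blg S up K T e) :
    lab d ∉ gE (BLw D j ∅ ∩ T.biUnion (S.Bt K T)) (BUw D j ∅ ∩ T.biUnion (S.Bt K T)) (1, -1) := by
  intro hcon
  obtain ⟨x, y, hl⟩ := exists_lt (lab_odd d)
  rw [hl, ← lbt_lt, mem_gE, mem_inter, mem_inter, mem_BLw, mem_BUw, lbt_lt, lbt_lt] at hcon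
  have hK0 : 400 ≤ K := by nlinarith
  have key : ∀ e ∈ T, ∀ X Y : ℤ, lt (X, Y) ∈ S.Bt K T e → 1 ≤ S.gD T e / K ∧
      (up (S.idx e).1 = true → j ≤ Y) ∧ (up (S.idx e).1 = false → Y < j - 1) := by
    intro e he X Y hm
    obtain ⟨hz, hze⟩ := hO.idx_mem (hT he)
    have hm' := hm
    rw [← hze] at hm'
    obtain ⟨g1, u, t, g2, g3, g4, g5⟩ := TSys.mem_Bt_tie (A := T) hO (by omega) hz hm'
    obtain ⟨-, -, hrg⟩ := rg_big (m := 2 * (S.gD T (S.tie (S.idx e)) / K)) (T := T) hO hΛ hK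
      hKL hz g1 (by nlinarith)
    have hreg := hrg u t (by omega) (by omega) g5
    rw [hze] at g1
    refine ⟨g1, fun hu => ?_, fun hu => ?_⟩
    · have h1 := (hG.bup _ u t hu g3 hreg).1
      rw [← lt_inj g2] at h1
      exact h1
    · have h1 := (hG.blo _ u t hu g3 hreg).2.1
      rw [← lt_inj g2] at h1
      exact h1
  rcases hcon with ⟨h1, h2⟩ | ⟨h1, h2⟩
  · obtain ⟨e, he, hm⟩ := mem_biUnion.1 h2
    obtain ⟨k1, k2, k3⟩ := key e he x y hm
    refine hno e he k1 ?_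
    cases hu : up (S.idx e).1
    · unfold Blg dl
      rw [Set.mem_ofPred_eq, hu, mem_insert, hl]
      right
      simp only [Bool.false_eq_true, if_false, sub_zero, add_zero]
      exact hm
    · have := k2 hu
      omega
  · obtain ⟨e, he, hm⟩ := mem_biUnion.1 h2
    obtain ⟨k1, k2, k3⟩ := key e he x (y + 1) hm
    refine hno e he k1 ?_
    cases hu : up (S.idx e).1
    · have := k3 hu
      omega
    · unfold Blg dl
      rw [Set.mem_ofPred_eq, hu, mem_insert, hl]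
      right
      simp only [if_true]
      have h5 := lt_shift x (y + 1) 1
      rw [add_sub_cancel_right] at h5
      rw [h5]
      exact hm

end tie

/-- the vertex of a mark of the row `j - 1` -/
lemma mark_row (c : ℤ) : (vx (sm true (j - 1) c)).2 - (vx (sm true (j - 1) c)).1 = j - 1 := by
  rw [vx_sm]
  unfold smv
  simp only [if_true]
  omega

open Classical in
/-- **B-h for windows.** -/
theorem bh_win (l f A : ℕ) : ∃ (Λ : ℤ) (C : ℝ), 1 ≤ Λ ∧ 0 < C ∧
    ∀ (K : ℤ), 200 * (Λ + 1) ≤ K → ∀ {κ : Type} [Fintype κ] [DecidableEq κ] [Nonempty κ] (R : ℕ)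
      (D : Win) (j : ℤ) (N : ℕ) (X : Env) (W Bp : Finset (ℤ × ℤ)) (F : Finset ℤ) (S : TSys κ)
      (up : κ → Bool) (E0 W0 : Finset (ℤ × ℤ)) (L : ℤ) (T : Finset (ℤ × ℤ)) (v : ℤ × ℤ),
    WRow D j N X W (T.biUnion (S.Bt K T)) → Base D j W Bp → Few D F → S.Ok E0 W0 L →
    GOk D j S L up → FOk S L W T → (∀ a, 40 * (Λ + 1) * S.N a ≤ K * L) → T ⊆ S.Ti → T.card ≤ l →
    Bp.card ≤ f → F.card ≤ f → D.h ≤ A * R → D.b D.yQ - D.a (D.yP - 1) ≤ A * R →
    v.2 - v.1 = j - 1 →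
    Ex (fun _ => (1 / 2 : ℝ))
      (gE (BLw D j (T.biUnion (S.Bt K T))) (BUw D j (T.biUnion (S.Bt K T))) (1, -1))
      (fun ω => (4 : ℝ) ^ (Lp (ω ∪ WGw D j W (T.biUnion (S.Bt K T))) v).ncard) ≤
      C * ((R : ℝ) + 1) ^ (25 / 32 : ℝ) := by
  obtain ⟨Λ, C, hΛ, hC, H⟩ := win_moment l (4 * (f + (24 * f + 120))) A
  refine ⟨Λ, C, hΛ, hC, ?_⟩
  intro K hK κ _ _ _ R D j N X W Bp F S up E0 W0 L T v hR Hb hF hO hG hf hKL hT hTl hBp hFf hh hw hv
  set T' := T.filter (fun e => 1 ≤ S.gD T e / K) with hT'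
  set en := T'.equivFin with hen
  set ee : Fin T'.card → ℤ × ℤ := fun i => (en.symm i : ℤ × ℤ) with hee
  have hmem : ∀ i, ee i ∈ T ∧ 1 ≤ S.gD T (ee i) / K := fun i => mem_filter.1 (en.symm i).2
  have hsurj : ∀ e ∈ T, 1 ≤ S.gD T e / K → ∃ i, ee i = e := by
    intro e he h3
    refine ⟨en ⟨e, mem_filter.2 ⟨he, h3⟩⟩, ?_⟩
    rw [hee]
    simp
  refine H R D j N X W (T.biUnion (S.Bt K T)) v hR hh hw T'.card
    ((card_le_card (filter_subset _ _)).trans hTl) (gts (Bg D F j Bp))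
    (card_gates.trans (Nat.mul_le_mul_left 4 (Nat.add_le_add hBp
      (Nat.add_le_add_right (Nat.mul_le_mul_left 24 hFf) 120))))
    (fun i => Blg S up K T (ee i))
    (fun i => Gn (gcl up (S.idx (ee i)).1 (S.c (S.idx (ee i)).1))
        (gE (BLw D j (T.biUnion (S.Bt K T))) (BUw D j (T.biUnion (S.Bt K T))) (1, -1))
        (WGw D j W (T.biUnion (S.Bt K T))) (Blg S up K T (ee i)))
    (fun i => cen S up (ee i)) (fun i => 4 * (S.gD T (ee i) / K) + 2)
    (fun i => Λ * (4 * (S.gD T (ee i) / K) + 3))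
    (fun ω => KvX (ω ∪ WGw D j W (T.biUnion (S.Bt K T))) v (gts (Bg D F j Bp)))
    (fun ω => KfX (ω ∪ WGw D j W (T.biUnion (S.Bt K T))) v (gts (Bg D F j Bp))) ?_ ?_ ?_ ?_
  · intro ω hω
    refine ⟨fun O' hO' hg => ⟨fun u hu => hu O' hO' hg, fun f hf => hf O' hO' hg⟩, ?_, ?_⟩
    · intro O' hO' hg c hc hcE hcB
      refine hW_win hR Hb hF hω hcE (hb_tie hO hG hT hΛ hK hKL fun e he h1 => ?_)
      obtain ⟨i, rfl⟩ := hsurj e he h1
      exact hcB i
    · intro i
      exact box_tie hR Hb hF hO hG hf hT hΛ hK hKL (hmem i).1 (hmem i).2 hω hv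
  · intro i
    have := (hmem i).2
    show 0 ≤ 4 * (S.gD T (ee i) / K) + 2
    omega
  · intro i
    show Λ * (4 * (S.gD T (ee i) / K) + 2 + 1) ≤ Λ * (4 * (S.gD T (ee i) / K) + 3)
    have : 4 * (S.gD T (ee i) / K) + 2 + 1 = 4 * (S.gD T (ee i) / K) + 3 := by ring
    rw [this]
  · intro i
    exact oneType_Gn

end Pool.Agent.H53.Sp
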